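import Mathlib
import Pool.Agent.T9h49.RK.Final

/-!
# Exponential lower bounds for Frege refutations in which few variables occur often in a line

The lines of the refutations are arbitrary formulas over conjunction, disjunction and negation, of
any depth, in which all but at most `k` variables occur at most `k` times. The rules are any sound
rules with at most `r` premises; so all Frege systems are covered. The refutations start from the
clauses of the formula. In addition arbitrary formulas with few variables are allowed as lines.

The hard formulas are parity conditions of the vertices of a sparse random graph (Tseitin formulas),
where each edge variable is replaced by the sum modulo two of `q` variables, its block. They have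
refutations of polynomial size in the unrestricted Frege systems.

Proof. Choose at random one variable of each block and values for all other variables. Each
restriction of the formula is again the Tseitin formula, so by the width argument each refutation
contains a line which depends on a constant fraction of the `n` blocks. A line with at most `k`
occurrences of each variable is cut into pieces of bounded size. By the theorem of Khrapchenko a
piece with `s` leaves has total influence at most the square root of `s`, so that in the mean only
few of its blocks remain relevant. The pieces which share no block are independent; so for large
block size `q` the line depends on less than the constant fraction of the blocks, with probability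
exponentially close to one.
-/

set_option autoImplicit false

namespace Pool.Agent.Results.MP_51bb46_lc.BoundedOccurrence

open Pool.Agent.T9h49.RK

/-- (1) For all `k` and `r` there are an `ε > 0` and arbitrarily large unsatisfiable sets `F` of
clauses, of size `s`, such that for each set of sound rules with at most `r` premises every
refutation of `F`, in which in each line with at least `ε s` variables at most `k` variables occur
more than `k` times, has at least `2 ^ (ε s)` lines.
(2) There is a single sequence `F n` of unsatisfiable sets of clauses of unbounded size such that for
each set of sound rules with a bounded number of premises (each Frege system) and all `k`, `c`, for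
all large `n`, every refutation of `F n`, in which in each line with more than `|F n| ^ (1 / 2)`
variables at most `k` variables occur more than `k` times, has more than `|F n| ^ c` lines. -/
theorem result :
    (∀ k r : ℕ, ∃ ε : ℝ, 0 < ε ∧ ∀ m : ℕ, ∃ F : List PForm,
      (∀ A ∈ F, A.IsClause) ∧ Unsat F ∧ m ≤ sizeL F ∧
      ∀ Φ : Set Rule, (∀ ρ ∈ Φ, ρ.Sound ∧ ρ.prem.length ≤ r) → ∀ π : List PForm,
        Refutes Φ F π →
        (∀ A ∈ π, (A.vars.filter (fun n => k < A.occ n)).card ≤ k ∨
          (A.vars.card : ℝ) < ε * sizeL F) →
            (2 : ℝ) ^ (ε * sizeL F) ≤ π.length) ∧
    ∃ F : ℕ → List PForm,
      (∀ n, (∀ A ∈ F n, A.IsClause) ∧ Unsat (F n) ∧ n ≤ sizeL (F n)) ∧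
      ∀ Φ : Set Rule, ∀ r : ℕ, (∀ ρ ∈ Φ, ρ.Sound ∧ ρ.prem.length ≤ r) → ∀ k c : ℕ,
        ∃ n₀, ∀ n, n₀ ≤ n → ∀ π : List PForm, Refutes Φ (F n) π →
          (∀ A ∈ π, (A.vars.filter (fun i => k < A.occ i)).card ≤ k ∨
            A.vars.card ^ 2 ≤ sizeL (F n)) →
              sizeL (F n) ^ c < π.length :=
  ⟨main, seq⟩

end Pool.Agent.Results.MP_51bb46_lc.BoundedOccurrence
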