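import Pool.Agent.T9h49.SC.IO
import Pool.Agent.T9h49.SC.Comp

/-!
# A language that is complete for `NP ∩ coNP` on infinitely many long intervals of lengths

The classes `NP`, `coNP` and polynomial time `IsPolyTime` are the ones of the frozen statements
(`Pool.Prelude.Def_H_3587d628`).

For every computable function `g` (however fast it grows) there are a language `K` in `NP` and a
language `M` in `coNP` such that every language of `NP ∩ coNP` is reduced by one polynomial-time
function to both of them, and such that `K` and `M` are the same on all inputs whose length lies
in `[n, g n]`, for infinitely many `n`. So on these intervals of lengths, which are much longer than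
polynomial, `K` is a complete language for `NP ∩ coNP`; and it is hard for `NP ∩ coNP` everywhere. If
`K = M` everywhere then `K` is complete for `NP ∩ coNP`. There is no unproved hypothesis.

Proof (a finite injury argument in polynomial time). Let the pairs number `e = 0, 1, 2, ...` consist
of two nondeterministic machines with the same polynomial clock; a pair is good if on every input
exactly one of the machines accepts. An instance asks whether the first machine of the pair `e`
accepts `x`, and the answer of `K` (of the complement of `M`) is that of the first (second) machine,
if the pair `e` is active at the length of the instance. The lengths are divided into stages; a stage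
beginning at `n` is longer than `[n, g n]`, and its end is found by a search in polynomial time. At
the end of a stage the first pair that is not active becomes active, unless an exhaustive search of
very small inputs, which is feasible in polynomial time, has found since the beginning of the stage
a failure of some active pair; then the least such pair and all the larger ones become inactive. A
good pair is inactive at finitely many lengths only. Among the failures found after a given stage
consider the one of the least pair: all pairs that are active after it are good.
-/

set_option autoImplicit false

namespace Pool.Agent.Results.MP_c2284b_lc.CompleteOnLongIntervals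

open N68a2faeb N793a5b8e Pool.Agent.T9h49.SC

theorem result (g : ℕ → ℕ) (hg : Computable g) :
    ∃ K M : DecisionProblem, K ∈ NP ∧ M ∈ coNP ∧
      (∀ L ∈ NP ∩ coNP, ∃ f : List Bool → List Bool, IsPolyTime f ∧
        ∀ x, L x = K (f x) ∧ L x = M (f x)) ∧
      ∀ n₀ : ℕ, ∃ n : ℕ, n₀ ≤ n ∧
        ∀ z : List Bool, n ≤ z.length → z.length ≤ g n → K z = M z := by
  obtain ⟨cd, h1, h2, h3⟩ := exists_clock hg
  have hc : Clk cd g := ⟨h2, h3⟩
  exact ⟨KK cd, MM cd, KK_np cd h1, MM_conp cd h1, fun L hL => hard hc hL, intervals hc⟩

end Pool.Agent.Results.MP_c2284b_lc.CompleteOnLongIntervals
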