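import Pool.Agent.T9h49.FE.Pebble

/-!
# Extended Frege proofs whose definitions can be evaluated in small space

Suppose that the definitions of the extension variables of an extended Frege proof with `s` symbols
can be evaluated by a straight-line program with `w` registers and `T` instructions; definitions may
be evaluated several times. Then there is a Frege proof with at most `(s + T + 2) ^ (c (w + 1))`
symbols. The program is cut into two halves again and again; the contents of the registers in the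
middle are selected among their `2 ^ w` possible values. So if tautologies `τ n` separate extended
Frege from Frege with a lower bound `2 ^ (|τ n| ^ ε)`, then the definitions of their polynomial-size
extended Frege proofs cannot be evaluated in time `2 ^ (|τ n| ^ δ)` and space `|τ n| ^ δ'` when
`δ + δ' < ε`.
-/

set_option autoImplicit false

namespace Pool.Agent.Results.MP_c07f0d_lc.SmallSpaceDefinitions

open Pool.Agent.T9h49.FE Filter

theorem asymp (c C : ℕ) {δ δ' ε : ℝ} (hδ : 0 < δ) (hδ' : 0 < δ') (h : δ + δ' < ε) :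
    ∀ᶠ x : ℕ in atTop, ∀ w T : ℕ, (w : ℝ) ≤ (x : ℝ) ^ δ' → (T : ℝ) ≤ 2 ^ ((x : ℝ) ^ δ) →
      ((((x ^ C + C) + T + 2) ^ (c * (w + 1)) : ℕ) : ℝ) < 2 ^ ((x : ℝ) ^ ε) := by
  have hη : 0 < ε - (δ + δ') := by linarith
  have hA : ∀ᶠ x : ℝ in atTop, Real.log x ≤ (Real.log 2 / (C + 2)) * x ^ δ := by
    have h1 := (isLittleO_log_rpow_atTop hδ).def
      (show 0 < Real.log 2 / (C + 2) from div_pos (Real.log_pos (by norm_num)) (by positivity))
    filter_upwards [h1, eventually_ge_atTop 1] with x hx hx1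
    rw [Real.norm_of_nonneg (Real.log_nonneg hx1),
      Real.norm_of_nonneg (Real.rpow_nonneg (by linarith) _)] at hx
    exact hx
  have hB := (tendsto_rpow_atTop hη).eventually (eventually_gt_atTop (4 * (c : ℝ)))
  have hA' := tendsto_natCast_atTop_atTop (R := ℝ) |>.eventually hA
  have hB' := tendsto_natCast_atTop_atTop (R := ℝ) |>.eventually hB
  filter_upwards [hA', hB', eventually_ge_atTop (C + 2)] with x hx1 hx2 hxC w T hw hT
  have hx0 : 1 ≤ x := by omega
  have hxr : (1 : ℝ) ≤ x := by exact_mod_cast hx0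
  have hxp : (0 : ℝ) < x := by linarith
  set L : ℝ := (x : ℝ) ^ δ with hL
  have hL1 : (1 : ℝ) ≤ L := Real.one_le_rpow hxr hδ.le
  have h7 : x ^ C + C + 2 ≤ x ^ (C + 2) := by
    have e1 : 1 ≤ x ^ C := Nat.one_le_pow _ _ (by omega)
    have e2 : x ^ (C + 2) = x ^ C * (x * x) := by ring
    rw [e2]
    have e3 : x + x ≤ x * x := by nlinarith
    have e4 : x ^ C * (x + x) ≤ x ^ C * (x * x) := Nat.mul_le_mul_left _ e3
    have e5 : x ^ C + x ≤ x ^ C * (x + x) := by nlinarith
    omega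
  have h8 : (((x ^ C + C) + 2 : ℕ) : ℝ) ≤ (2 : ℝ) ^ L := by
    have e1 : (((x ^ C + C) + 2 : ℕ) : ℝ) ≤ ((x ^ (C + 2) : ℕ) : ℝ) := by exact_mod_cast h7
    refine e1.trans ?_
    have hl2 : 0 < Real.log 2 := Real.log_pos (by norm_num)
    rw [← Real.log_le_log_iff (by positivity) (by positivity), Real.log_rpow (by norm_num),
      Nat.cast_pow, Real.log_pow]
    have e2 : ((C + 2 : ℕ) : ℝ) * Real.log x ≤ ((C + 2 : ℕ) : ℝ) * (Real.log 2 / (C + 2) * L) :=
      mul_le_mul_of_nonneg_left hx1 (by positivity)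
    refine e2.trans (le_of_eq ?_)
    push_cast
    field_simp
  have h9 : (((x ^ C + C) + T + 2 : ℕ) : ℝ) ≤ (2 : ℝ) ^ (2 * L) := by
    have e1 : (((x ^ C + C) + T + 2 : ℕ) : ℝ) ≤ (2 : ℝ) ^ L + (2 : ℝ) ^ L := by
      have : (((x ^ C + C) + T + 2 : ℕ) : ℝ) = (((x ^ C + C) + 2 : ℕ) : ℝ) + T := by
        push_cast
        ring
      rw [this]
      exact add_le_add h8 hT
    have e2 : (2 : ℝ) ≤ (2 : ℝ) ^ L := by
      calc (2 : ℝ) = 2 ^ (1 : ℝ) := (Real.rpow_one _).symm
        _ ≤ 2 ^ L := Real.rpow_le_rpow_of_exponent_le (by norm_num) hL1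
    have e3 : (2 : ℝ) ^ (2 * L) = (2 : ℝ) ^ L * (2 : ℝ) ^ L := by
      rw [← Real.rpow_add (by norm_num)]
      congr 1
      ring
    rw [e3]
    refine e1.trans ?_
    have e4 : (0 : ℝ) < (2 : ℝ) ^ L := by positivity
    nlinarith
  rw [Nat.cast_pow]
  calc (((x ^ C + C) + T + 2 : ℕ) : ℝ) ^ (c * (w + 1)) ≤ ((2 : ℝ) ^ (2 * L)) ^ (c * (w + 1)) :=
        pow_le_pow_left₀ (by positivity) h9 _
    _ = (2 : ℝ) ^ (2 * L * (c * (w + 1) : ℕ)) := by
        rw [← Real.rpow_natCast, ← Real.rpow_mul (by norm_num)]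
    _ < 2 ^ ((x : ℝ) ^ ε) := by
        refine Real.rpow_lt_rpow_of_exponent_lt (by norm_num) ?_
        have hε : (x : ℝ) ^ ε = (x : ℝ) ^ (ε - (δ + δ')) * (L * (x : ℝ) ^ δ') := by
          rw [hL, ← Real.rpow_add hxp, ← Real.rpow_add hxp]
          congr 1
          ring
        rw [hε]
        push_cast
        have hX1 : (1 : ℝ) ≤ (x : ℝ) ^ δ' := Real.one_le_rpow hxr hδ'.le
        have hc0 : (0 : ℝ) ≤ c := Nat.cast_nonneg _
        have f1 : (w : ℝ) + 1 ≤ 2 * (x : ℝ) ^ δ' := by linarith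
        have f2 : 2 * L * (c * (w + 1)) ≤ 2 * L * (c * (2 * (x : ℝ) ^ δ')) :=
          mul_le_mul_of_nonneg_left (mul_le_mul_of_nonneg_left f1 hc0) (by linarith)
        have f3 : 2 * L * (c * (2 * (x : ℝ) ^ δ')) = (4 * c) * (L * (x : ℝ) ^ δ') := by ring
        have f4 : (4 * (c : ℝ)) * (L * (x : ℝ) ^ δ') <
            (x : ℝ) ^ (ε - (δ + δ')) * (L * (x : ℝ) ^ δ') :=
          mul_lt_mul_of_pos_right hx2 (by positivity)
        linarith

/-- Let `F` be a Frege system.

(1) There is a constant `c` such that if the definitions `D` of an extended Frege proof `π` of `τ`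
can be evaluated by a straight-line program with `w` registers and `T` instructions, then there is a
Frege proof of `τ` with at most `(|π| + T + 2) ^ (c (w + 1))` symbols.

(2) Let `τ n` be formulas whose sizes tend to infinity such that every Frege proof of `τ n` has size
at least `2 ^ (|τ n| ^ ε)`, and let `δ, δ' > 0` and `δ + δ' < ε`. Then for every exponent `C` and all
large `n`, the definitions of an extended Frege proof of `τ n` of size at most `|τ n| ^ C + C` cannot
be evaluated with at most `|τ n| ^ δ'` registers and at most `2 ^ (|τ n| ^ δ)` instructions. -/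
theorem result (F : FregeSystem) :
    (∃ c : ℕ, ∀ (τ : Fm F.B) (D : List (ℕ × Fm F.B)) (π : List (Fm F.B)), IsEProof F τ D π →
      ∀ (w T : ℕ) (ins : ℕ → ℕ × Fm F.B) (reg : ℕ → Fin w), Program D w T ins reg →
      ∃ π', IsProof F τ π' ∧ lsize π' ≤ (lsize π + T + 2) ^ (c * (w + 1))) ∧
    ∀ (τ : ℕ → Fm F.B) (ε δ δ' : ℝ), 0 < δ → 0 < δ' → δ + δ' < ε →
      Tendsto (fun n => (τ n).size) atTop atTop →
      (∀ n π, IsProof F (τ n) π → (2 : ℝ) ^ (((τ n).size : ℝ) ^ ε) ≤ lsize π) →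
      ∀ C : ℕ, ∀ᶠ n in atTop, ∀ D π, IsEProof F (τ n) D π → lsize π ≤ (τ n).size ^ C + C →
        ∀ (w T : ℕ) (ins : ℕ → ℕ × Fm F.B) (reg : ℕ → Fin w), Program D w T ins reg →
          (T : ℝ) ≤ 2 ^ (((τ n).size : ℝ) ^ δ) → ((τ n).size : ℝ) ^ δ' < w := by
  obtain ⟨c, hc⟩ := of_program F
  refine ⟨⟨c, hc⟩, fun τ ε δ δ' hδ hδ' hε hτ hlow C => ?_⟩
  filter_upwards [hτ.eventually (asymp c C hδ hδ' hε)] with n hn D π h hs w T ins reg hP hT
  by_contra hw
  rw [not_lt] at hw
  obtain ⟨π', h1, h2⟩ := hc _ _ _ h w T ins reg hP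
  have h3 := hn w T hw hT
  have h4 := hlow n π' h1
  have h5 : (lsize π' : ℝ) ≤ (((((τ n).size ^ C + C) + T + 2) ^ (c * (w + 1)) : ℕ) : ℝ) := by
    have e : lsize π' ≤ (((τ n).size ^ C + C) + T + 2) ^ (c * (w + 1)) :=
      h2.trans (Nat.pow_le_pow_left (by omega) _)
    exact_mod_cast e
  linarith

end Pool.Agent.Results.MP_c07f0d_lc.SmallSpaceDefinitions
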